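import Pool.Agent.V11228.Col3Fin

/-!
# Collinearity logic with collinear groups of at most three variables is `∃ℝ`-complete

`COL_k` is `∃ℝ`-complete for every `k ≥ 3`; in particular the answer to Q1 of MP_8c8e41_lc is
affirmative, with `k = 3`.  The reduction starts from the library's reduction for straight-line
realizability of linear hypergraphs of rank three: every collinearity constraint is replaced by
the eight other lines of a Pappus configuration with six new points; distinctness of the points is
expressed by negative atoms with one additional point, which is not collinear with any two of the
other points.
-/

open Pool.Agent.NPC Pool.Agent.NPC.ER Pool.Agent.NPC.V11228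

/-- `COL_k` is `∃ℝ`-complete under polynomial-time many-one reductions for every `k ≥ 3`. -/
theorem Pool.Agent.Results.MP_8c8e41_lc.GroupsOfThree.result :
    ∀ k : ℕ, 3 ≤ k → ERComplete (lang (C3.COLk k)) :=
  fun _ hk => C3.COLk_complete hk
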